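import Mathlib
import Pool.Agent.Helper809.Cub.Chain
import Pool.Agent.Results.MP_cd2e96_co.RoyleCubic
import Pool.Agent.Y781.CB.B
import Pool.Agent.Y781.CB.U

set_option autoImplicit false

open Polynomial

namespace Pool.Agent.Results.MP_6f9538_co.EveryLargeOrder

/-- `p` is the chromatic polynomial of `G`: for every natural number `k` the value `p(k)` is the
number of proper vertex colourings of `G` with colours from a set of `k` colours. -/
def IsChromaticPoly {V : Type} (G : SimpleGraph V) (p : ℤ[X]) : Prop :=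
  ∀ k : ℕ, p.eval (k : ℤ) = Nat.card (G.Coloring (Fin k))

/-- `z` is a chromatic root of `G`: a complex zero of the chromatic polynomial of `G`. -/
def IsChromaticRoot {V : Type} (G : SimpleGraph V) (z : ℂ) : Prop :=
  ∃ p : ℤ[X], IsChromaticPoly G p ∧ aeval z p = 0

/-- The largest degree of a vertex of `G` is `D`. -/
def MaxDegreeEq {n : ℕ} (G : SimpleGraph (Fin n)) (D : ℕ) : Prop :=
  (∀ v : Fin n, Nat.card (G.neighborSet v) ≤ D) ∧ ∃ v : Fin n, Nat.card (G.neighborSet v) = D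

/-- `G` is admissible for `D`: its maximum degree is `D` and, if `D = 3`, no connected component
of `G` is isomorphic to the complete graph on four vertices. -/
def Admissible {n : ℕ} (D : ℕ) (G : SimpleGraph (Fin n)) : Prop :=
  MaxDegreeEq G D ∧
    (D = 3 → ∀ c : G.ConnectedComponent,
      ¬ Nonempty (G.induce c.supp ≃g (⊤ : SimpleGraph (Fin 4))))

/-- `r` is the largest modulus of a chromatic root of the complete bipartite graph `K_{D,D}`. -/
def IsRho (D : ℕ) (r : ℝ) : Prop :=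
  IsGreatest {s : ℝ | ∃ z : ℂ, IsChromaticRoot (completeBipartiteGraph (Fin D) (Fin D)) z ∧
    s = ‖z‖} r

theorem rootModuli_eq {V : Type} (G : SimpleGraph V) :
    {s : ℝ | ∃ z : ℂ, IsChromaticRoot G z ∧ s = ‖z‖} = MP_cd2e96_co.RoyleCubic.rootModuli G := by
  ext r
  constructor
  · rintro ⟨z, ⟨p, h1, h2⟩, rfl⟩
    exact ⟨p, z, h1, h2, rfl⟩
  · rintro ⟨p, z, h1, h2, rfl⟩
    exact ⟨z, ⟨p, h1, h2⟩, rfl⟩

theorem root_three_of_K33 : ∀ z : ℂ,
    IsChromaticRoot (completeBipartiteGraph (Fin 3) (Fin 3)) z → ‖z‖ < 29 / 10 := by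
  rintro z ⟨p, hp, hz⟩
  apply ChrRoots.J22.K33_root_bound
  have hq : MP_cd2e96_co.RoyleCubic.IsChromaticPoly (completeBipartiteGraph (Fin 3) (Fin 3))
      (X * (X - 1) * (X ^ 4 - 8 * X ^ 3 + 28 * X ^ 2 - 47 * X + 31) : ℤ[X]) := by
    intro k
    have h := ChrRoots.P_K33 (k : ℝ)
    rw [ChrRoots.P_nat, ← MP_cd2e96_co.RoyleCubic.coloring_card] at h
    have h2 : ((Nat.card ((completeBipartiteGraph (Fin 3) (Fin 3)).Coloring (Fin k)) : ℤ) : ℝ) =
        (((k : ℤ) * ((k : ℤ) - 1) * ((k : ℤ) ^ 4 - 8 * (k : ℤ) ^ 3 + 28 * (k : ℤ) ^ 2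
          - 47 * (k : ℤ) + 31) : ℤ) : ℝ) := by
      push_cast
      exact h
    have h3 := Int.cast_injective (α := ℝ) h2
    rw [h3]
    simp
  have hp' : MP_cd2e96_co.RoyleCubic.IsChromaticPoly
      (completeBipartiteGraph (Fin 3) (Fin 3)) p := hp
  rw [hp'.unique hq] at hz
  simp only [map_mul, map_sub, map_add, map_pow, aeval_X, map_one, map_ofNat] at hz
  exact hz

/-- a root of the polynomial function of `G` is a chromatic root -/
theorem isRoot_of_P {m : ℕ} (G : SimpleGraph (Fin m)) (x : ℝ) (hroot : ChrRoots.P G.Adj x = 0) :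
    IsChromaticRoot G (x : ℂ) := by
  refine ⟨MP_cd2e96_co.RoyleCubic.chrPoly G,
    MP_cd2e96_co.RoyleCubic.isChromaticPoly_chrPoly G, ?_⟩
  have h := MP_cd2e96_co.RoyleCubic.aeval_chrPoly G x
  rw [hroot] at h
  have h2 : aeval (algebraMap ℝ ℂ x) (MP_cd2e96_co.RoyleCubic.chrPoly G) =
      algebraMap ℝ ℂ (aeval x (MP_cd2e96_co.RoyleCubic.chrPoly G)) :=
    Polynomial.aeval_algebraMap_apply ℂ x (MP_cd2e96_co.RoyleCubic.chrPoly G)
  rw [h, map_zero] at h2
  exact h2

/-- The complete bipartite graph `K_{3,3}` is far from having a chromatic root of largest modulus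
among the graphs of maximum degree three without component `K_4`: its chromatic roots have modulus
less than `2.9`, while a connected cubic graph with at most `7416` vertices (not `K_4`) has a real
chromatic root in `(44/15, 3]`, and for every `n ≥ 7416` some graph with exactly `n` vertices, of
maximum degree three and without component `K_4`, has such a root. In particular the conjecture
fails, for every large number of vertices. -/
theorem result :
    (∀ (n : ℕ) (G : SimpleGraph (Fin n)), ∃! p : ℤ[X], IsChromaticPoly G p) ∧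
    (∀ D : ℕ, 1 ≤ D → ∃ r : ℝ, IsRho D r) ∧
    (∀ r : ℝ, IsRho 3 r → r < 29 / 10) ∧
    (∃ (m : ℕ) (G : SimpleGraph (Fin m)), m ≤ 7416 ∧ G.Connected ∧
      (∀ v : Fin m, Nat.card (G.neighborSet v) = 3) ∧ Admissible 3 G ∧
      ∃ x : ℝ, 44 / 15 < x ∧ x ≤ 3 ∧ IsChromaticRoot G (x : ℂ)) ∧
    (∀ n : ℕ, 7416 ≤ n → ∃ G : SimpleGraph (Fin n), Admissible 3 G ∧
      ∃ x : ℝ, 44 / 15 < x ∧ x ≤ 3 ∧ IsChromaticRoot G (x : ℂ)) ∧
    ¬ (∀ (D : ℕ), 3 ≤ D → ∀ (n : ℕ) (G : SimpleGraph (Fin n)), Admissible D G →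
      ∀ r : ℝ, IsRho D r → ∀ z : ℂ, IsChromaticRoot G z → ‖z‖ ≤ r) := by
  have hex : ∀ D : ℕ, 1 ≤ D → ∃ r : ℝ, IsRho D r := by
    intro D hD
    have : Nonempty (Fin D ⊕ Fin D) := ⟨Sum.inl ⟨0, hD⟩⟩
    refine ⟨MP_cd2e96_co.RoyleCubic.rho (completeBipartiteGraph (Fin D) (Fin D)), ?_⟩
    unfold IsRho
    rw [rootModuli_eq]
    exact MP_cd2e96_co.RoyleCubic.isGreatest_rho _
  have hrho : ∀ r : ℝ, IsRho 3 r → r < 29 / 10 := by
    intro r hr
    obtain ⟨z, hz, hzr⟩ := hr.1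
    rw [hzr]
    exact root_three_of_K33 z hz
  obtain ⟨m, G, hmle, hm, hG, hd, x, hx, hx3, hroot⟩ := Y781.CB.exists_cubic_A
  have hall : ∀ n : ℕ, m ≤ n → ∃ G : SimpleGraph (Fin n), Admissible 3 G ∧
      ∃ x : ℝ, 44 / 15 < x ∧ x ≤ 3 ∧ IsChromaticRoot G (x : ℂ) := by
    intro n hn
    obtain ⟨G', h1, h2, h3, h4⟩ := Y781.CB.exists_order G hm hG hd x hroot n hn
    exact ⟨G', ⟨⟨h1, h2⟩, fun _ => h3⟩, x, hx, hx3, isRoot_of_P G' x h4⟩
  refine ⟨fun n G => ⟨MP_cd2e96_co.RoyleCubic.chrPoly G,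
    MP_cd2e96_co.RoyleCubic.isChromaticPoly_chrPoly G, fun p hp =>
    MP_cd2e96_co.RoyleCubic.IsChromaticPoly.unique hp
      (MP_cd2e96_co.RoyleCubic.isChromaticPoly_chrPoly G)⟩, hex, hrho, ?_,
      fun n hn => hall n (hmle.trans hn), ?_⟩
  · have : Nonempty (Fin m) := hG.nonempty
    refine ⟨m, G, hmle, hG, hd, ⟨⟨fun v => (hd v).le, ⟨Classical.arbitrary _, hd _⟩⟩, ?_⟩, x, hx,
      hx3, isRoot_of_P G x hroot⟩
    rintro - c ⟨e⟩
    have hc : c.supp = Set.univ := by
      rw [Set.eq_univ_iff_forall]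
      intro v
      rw [SimpleGraph.ConnectedComponent.mem_supp_iff]
      have := hG.preconnected.subsingleton_connectedComponent
      exact Subsingleton.elim _ _
    have h1 : Nat.card c.supp = Nat.card (Fin 4) := Nat.card_congr e.toEquiv
    rw [hc] at h1
    simp at h1
    exact hm h1
  · intro hcon
    obtain ⟨G', hadm, y, hy, -, hyroot⟩ := hall m le_rfl
    obtain ⟨r, hr⟩ := hex 3 (by norm_num)
    have h1 := hcon 3 le_rfl m G' hadm r hr y hyroot
    have h2 := hrho r hr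
    rw [Complex.norm_real, Real.norm_eq_abs, abs_of_pos (by linarith)] at h1
    linarith

end Pool.Agent.Results.MP_6f9538_co.EveryLargeOrder
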